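import Mathlib
import Pool.Agent.Lib.MP_215a10_lc.Dec.Main

namespace Pool.Agent.Results.MP_215a10_lc.Decidable

open Filter

/-- `y` is one of the four neighbours of `x`. -/
def Adj (x y : ℤ × ℤ) : Prop := (y.1 - x.1) ^ 2 + (y.2 - x.2) ^ 2 = 1

open Classical in
/-- Toppling the site `x`: it loses four grains, each neighbour gains one. -/
noncomputable def topple (c : ℤ × ℤ → ℕ) (x : ℤ × ℤ) : ℤ × ℤ → ℕ :=
  fun y => if y = x then c y - 4 else if Adj x y then c y + 1 else c y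

/-- There is a sequence of `N ≤ ∞` legal topplings, at sites `s 0, s 1, ..`, passing through the
configurations `C 0 = c, C 1, ..`, in which every site topples finitely often and whose pointwise
limit is stable. -/
def Stabilizable (c : ℤ × ℤ → ℕ) : Prop :=
  ∃ (N : ℕ∞) (s : ℕ → ℤ × ℤ) (C : ℕ → ℤ × ℤ → ℕ) (d : ℤ × ℤ → ℕ), C 0 = c ∧
    (∀ k : ℕ, (k : ℕ∞) < N → 4 ≤ C k (s k) ∧ C (k + 1) = topple (C k) (s k)) ∧
    (∀ k : ℕ, N ≤ (k : ℕ∞) → C (k + 1) = C k) ∧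
    (∀ x, {k : ℕ | (k : ℕ∞) < N ∧ s k = x}.Finite) ∧
    (∀ x, ∀ᶠ k in atTop, C k x = d x) ∧ ∀ x, d x ≤ 3

/-- The values of `c` on `{0..p-1} × {0..q-1}`, row by row. -/
def table (p q : ℕ) (c : ℤ × ℤ → ℕ) : List ℕ :=
  (List.range (p * q)).map fun k => c (((k / q : ℕ) : ℤ), ((k % q : ℕ) : ℤ))

/-- The discrete Laplacian of an odometer. -/
def lap (u : ℤ × ℤ → ℕ) (x : ℤ × ℤ) : ℤ :=
  ((u (x.1 + 1, x.2) : ℤ) + (u (x.1 - 1, x.2) : ℤ) + (u (x.1, x.2 + 1) : ℤ)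
    + (u (x.1, x.2 - 1) : ℤ)) - 4 * (u x : ℤ)

lemma adj_iff (x y : ℤ × ℤ) : Adj x y ↔ (y.1 + 1, y.2) = x ∨ (y.1 - 1, y.2) = x ∨
    (y.1, y.2 + 1) = x ∨ (y.1, y.2 - 1) = x := by
  obtain ⟨a, b⟩ := x
  obtain ⟨c, d⟩ := y
  simp only [Adj, Prod.mk.injEq]
  constructor
  · intro h
    have h1 : c - a ≤ 1 := by nlinarith [sq_nonneg (d - b), sq_nonneg (c - a - 1)]
    have h2 : -1 ≤ c - a := by nlinarith [sq_nonneg (d - b), sq_nonneg (c - a + 1)]
    have h3 : d - b ≤ 1 := by nlinarith [sq_nonneg (c - a), sq_nonneg (d - b - 1)]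
    have h4 : -1 ≤ d - b := by nlinarith [sq_nonneg (c - a), sq_nonneg (d - b + 1)]
    obtain ⟨e, he⟩ : ∃ e, e = c - a := ⟨_, rfl⟩
    obtain ⟨f, hf⟩ : ∃ f, f = d - b := ⟨_, rfl⟩
    rw [← he] at h h1 h2
    rw [← hf] at h h3 h4
    interval_cases e <;> interval_cases f <;> simp at h <;> omega
  · rintro (⟨rfl, rfl⟩ | ⟨rfl, rfl⟩ | ⟨rfl, rfl⟩ | ⟨rfl, rfl⟩) <;> ring

lemma topple_eq (c : ℤ × ℤ → ℕ) (x y : ℤ × ℤ) (h : 4 ≤ c x) (v : ℤ × ℤ → ℕ) :
    (topple c x y : ℤ) + lap v y = c y + lap (fun z => v z + if z = x then 1 else 0) y := by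
  obtain ⟨a, b⟩ := x
  obtain ⟨e, f⟩ := y
  simp only [topple, adj_iff, lap, Prod.mk.injEq]
  by_cases h0 : e = a ∧ f = b
  · obtain ⟨rfl, rfl⟩ := h0
    simp only [and_self, if_true, and_true, true_and]
    rw [if_neg (by omega), if_neg (by omega), if_neg (by omega), if_neg (by omega)]
    push_cast [h]
    ring
  · rw [if_neg h0]
    simp only [if_neg h0]
    split_ifs <;> omega

open Classical in
/-- The number of topplings at `x` among the first `k` steps. -/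
noncomputable def cnt (N : ℕ∞) (s : ℕ → ℤ × ℤ) (k : ℕ) (x : ℤ × ℤ) : ℕ :=
  ((Finset.range k).filter fun j : ℕ => (j : ℕ∞) < N ∧ s j = x).card

lemma cnt_succ_lt {N : ℕ∞} (s : ℕ → ℤ × ℤ) {k : ℕ} (h : (k : ℕ∞) < N) :
    cnt N s (k + 1) = fun z => cnt N s k z + if z = s k then 1 else 0 := by
  funext z
  simp only [cnt, Finset.range_add_one, Finset.filter_insert, h, true_and]
  by_cases e : s k = z
  · rw [if_pos e, if_pos e.symm, Finset.card_insert_of_notMem (by simp)]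
  · rw [if_neg e, if_neg (Ne.symm e), add_zero]

lemma cnt_succ_ge {N : ℕ∞} (s : ℕ → ℤ × ℤ) {k : ℕ} (h : N ≤ (k : ℕ∞)) :
    cnt N s (k + 1) = cnt N s k := by
  funext z
  simp only [cnt, Finset.range_add_one, Finset.filter_insert, h.not_gt, false_and, if_false]

lemma conf_eq {N : ℕ∞} {s : ℕ → ℤ × ℤ} {C : ℕ → ℤ × ℤ → ℕ}
    (h1 : ∀ k : ℕ, (k : ℕ∞) < N → 4 ≤ C k (s k) ∧ C (k + 1) = topple (C k) (s k))
    (h2 : ∀ k : ℕ, N ≤ (k : ℕ∞) → C (k + 1) = C k) (k : ℕ) (y : ℤ × ℤ) :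
    (C k y : ℤ) = C 0 y + lap (cnt N s k) y := by
  induction k with
  | zero => simp [lap, cnt]
  | succ k ih =>
    rcases lt_or_ge (k : ℕ∞) N with h | h
    · have := topple_eq (C k) (s k) y (h1 k h).1 (cnt N s k)
      rw [(h1 k h).2, cnt_succ_lt s h]
      linarith
    · rw [h2 k h, cnt_succ_ge s h, ih]

lemma cnt_eventually {N : ℕ∞} {s : ℕ → ℤ × ℤ} {x : ℤ × ℤ}
    (h : {k : ℕ | (k : ℕ∞) < N ∧ s k = x}.Finite) :
    ∀ᶠ k in atTop, cnt N s k x = {k : ℕ | (k : ℕ∞) < N ∧ s k = x}.ncard := by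
  classical
  obtain ⟨M, hM⟩ := h.bddAbove
  filter_upwards [eventually_gt_atTop M] with k hk
  rw [cnt, ← Set.ncard_coe_finset]
  congr 1
  ext j
  simp only [Finset.coe_filter, Finset.mem_range, Set.mem_ofPred_eq]
  exact ⟨fun h => h.2, fun h => ⟨(hM h).trans_lt hk, h⟩⟩

lemma lap_eventually {N : ℕ∞} {s : ℕ → ℤ × ℤ}
    (h : ∀ x, {k : ℕ | (k : ℕ∞) < N ∧ s k = x}.Finite) (x : ℤ × ℤ) :
    ∀ᶠ k in atTop, lap (cnt N s k) x =
      lap (fun x => {k : ℕ | (k : ℕ∞) < N ∧ s k = x}.ncard) x := by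
  filter_upwards [cnt_eventually (h x), cnt_eventually (h (x.1 + 1, x.2)),
    cnt_eventually (h (x.1 - 1, x.2)), cnt_eventually (h (x.1, x.2 + 1)),
    cnt_eventually (h (x.1, x.2 - 1))] with k e1 e2 e3 e4 e5
  simp only [lap, e1, e2, e3, e4, e5]

/-- The least action principle. -/
lemma cnt_le {N : ℕ∞} {s : ℕ → ℤ × ℤ} {C : ℕ → ℤ × ℤ → ℕ}
    (h1 : ∀ k : ℕ, (k : ℕ∞) < N → 4 ≤ C k (s k) ∧ C (k + 1) = topple (C k) (s k))
    (h2 : ∀ k : ℕ, N ≤ (k : ℕ∞) → C (k + 1) = C k) {u : ℤ × ℤ → ℕ}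
    (hu : ∀ x, (C 0 x : ℤ) + lap u x ≤ 3) (k : ℕ) : ∀ x, cnt N s k x ≤ u x := by
  induction k with
  | zero => simp [cnt]
  | succ k ih =>
    rcases lt_or_ge (k : ℕ∞) N with h | h
    · intro x
      rw [cnt_succ_lt s h]
      have := ih x
      dsimp only
      split_ifs with e
      · subst e
        have a0 := conf_eq h1 h2 k (s k)
        have a1 := (h1 k h).1
        have a2 := hu (s k)
        have a3 := ih ((s k).1 + 1, (s k).2)
        have a4 := ih ((s k).1 - 1, (s k).2)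
        have a5 := ih ((s k).1, (s k).2 + 1)
        have a6 := ih ((s k).1, (s k).2 - 1)
        simp only [lap] at a0 a2
        omega
      · omega
    · rw [cnt_succ_ge s h]
      exact ih

open Classical in
/-- The unstable site that comes first in a fixed enumeration. -/
noncomputable def first (c : ℤ × ℤ → ℕ) : ℤ × ℤ :=
  if h : ∃ x, 4 ≤ c x then Function.argminOn Encodable.encode {x | 4 ≤ c x} h else 0

open Classical in
/-- One step of the greedy toppling procedure. -/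
noncomputable def step (c : ℤ × ℤ → ℕ) : ℤ × ℤ → ℕ :=
  if ∃ x, 4 ≤ c x then topple c (first c) else c

lemma stab_iff (c : ℤ × ℤ → ℕ) :
    Stabilizable c ↔ ∃ u : ℤ × ℤ → ℕ, ∀ x, (c x : ℤ) + lap u x ≤ 3 := by
  classical
  constructor
  · rintro ⟨N, s, C, d, rfl, h1, h2, h3, h4, h5⟩
    refine ⟨fun x => {k : ℕ | (k : ℕ∞) < N ∧ s k = x}.ncard, fun x => ?_⟩
    obtain ⟨k, e1, e2⟩ := ((h4 x).and (lap_eventually h3 x)).exists
    rw [← e2, ← conf_eq h1 h2, e1]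
    exact_mod_cast h5 x
  · rintro ⟨u, hu⟩
    let C : ℕ → ℤ × ℤ → ℕ := fun k => step^[k] c
    have hC : ∀ k, C (k + 1) = step (C k) := fun k => Function.iterate_succ_apply' _ _ _
    let N : ℕ∞ := sInf ((fun k : ℕ => (k : ℕ∞)) '' {k | ¬ ∃ x, 4 ≤ C k x})
    have hst : ∀ j k, j ≤ k → (¬ ∃ x, 4 ≤ C j x) → ¬ ∃ x, 4 ≤ C k x := by
      intro j k hjk hj
      induction k, hjk using Nat.le_induction with
      | base => exact hj
      | succ k _ ih => rwa [hC, step, if_neg ih]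
    have hN : ∀ k : ℕ, (k : ℕ∞) < N ↔ ∃ x, 4 ≤ C k x := fun k => by
      constructor
      · intro h
        by_contra h'
        exact h.not_ge (sInf_le ⟨k, h', rfl⟩)
      · intro h
        refine lt_of_lt_of_le (b := ((k + 1 : ℕ) : ℕ∞)) (by exact_mod_cast k.lt_succ_self)
          (le_sInf ?_)
        rintro _ ⟨j, hj, rfl⟩
        have : k + 1 ≤ j := by
          by_contra h'
          exact hst j k (by omega) hj h
        exact Nat.cast_le.2 this
    let s : ℕ → ℤ × ℤ := fun k => first (C k)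
    have h1 : ∀ k : ℕ, (k : ℕ∞) < N → 4 ≤ C k (s k) ∧ C (k + 1) = topple (C k) (s k) := by
      intro k hk
      have h := (hN k).1 hk
      refine ⟨?_, by rw [hC, step, if_pos h]⟩
      simp only [s, first, dif_pos h]
      exact Function.argminOn_mem Encodable.encode {x | 4 ≤ C k x} h
    have h2 : ∀ k : ℕ, N ≤ (k : ℕ∞) → C (k + 1) = C k := fun k hk => by
      rw [hC, step, if_neg fun h => hk.not_gt ((hN k).2 h)]
    have h3 : ∀ x, {k : ℕ | (k : ℕ∞) < N ∧ s k = x}.Finite := fun x => by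
      by_contra h
      obtain ⟨T, hT, hc⟩ := Set.Infinite.exists_subset_card_eq h (u x + 1)
      obtain ⟨M, hM⟩ := T.bddAbove
      have a1 := cnt_le h1 h2 hu (M + 1) x
      have a2 : T.card ≤ cnt N s (M + 1) x := Finset.card_le_card fun j hj =>
        Finset.mem_filter.2 ⟨Finset.mem_range.2 (Nat.lt_succ_of_le (hM hj)), hT hj⟩
      omega
    let d : ℤ × ℤ → ℕ := fun x =>
      ((c x : ℤ) + lap (fun x => {k : ℕ | (k : ℕ∞) < N ∧ s k = x}.ncard) x).toNat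
    have h4 : ∀ x, ∀ᶠ k in atTop, C k x = d x := fun x => by
      filter_upwards [lap_eventually h3 x] with k hk
      have := conf_eq h1 h2 k x
      rw [hk] at this
      simp only [d]
      rw [show (c x : ℤ) = C 0 x from rfl, ← this, Int.toNat_natCast]
    refine ⟨N, s, C, d, rfl, h1, h2, h3, h4, fun x => ?_⟩
    by_contra h
    have hf : {y : ℤ × ℤ | Encodable.encode y ≤ Encodable.encode x}.Finite :=
      (Set.finite_Iic (Encodable.encode x)).preimage Encodable.encode_injective.injOn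
    obtain ⟨M, hM⟩ := (hf.biUnion fun y _ => h3 y).bddAbove
    obtain ⟨k, e1, e2⟩ := ((h4 x).and (eventually_gt_atTop M)).exists
    have e3 : 4 ≤ C k x := by omega
    refine e2.not_ge (hM (Set.mem_biUnion (x := s k) ?_ ⟨(hN k).2 ⟨x, e3⟩, rfl⟩))
    simp only [s, first, dif_pos (⟨x, e3⟩ : ∃ x, 4 ≤ C k x), Set.mem_ofPred_eq]
    exact Function.argminOn_le Encodable.encode {x | 4 ≤ C k x} e3

lemma periodic {c : ℤ × ℤ → ℕ} {v : ℤ × ℤ} (h : ∀ x, c (x + v) = c x) (n : ℤ) (x : ℤ × ℤ) :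
    c (x + n • v) = c x := Function.Periodic.zsmul (f := c) h n x

lemma table_get {p q : ℕ} (hp : 1 ≤ p) (hq : 1 ≤ q) {c : ℤ × ℤ → ℕ}
    (h1 : ∀ x, c (x + ((p : ℤ), 0)) = c x) (h2 : ∀ x, c (x + (0, (q : ℤ))) = c x) (x : ℤ × ℤ) :
    (table p q c).getD ((x.1 % (p : ℤ)).toNat * q + (x.2 % (q : ℤ)).toNat) 0 = c x := by
  have a1 := Int.emod_nonneg x.1 (show (p : ℤ) ≠ 0 by omega)
  have a2 := Int.emod_nonneg x.2 (show (q : ℤ) ≠ 0 by omega)
  have a3 := Int.emod_lt_of_pos x.1 (show (0 : ℤ) < p by omega)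
  have a4 := Int.emod_lt_of_pos x.2 (show (0 : ℤ) < q by omega)
  obtain ⟨i, hi⟩ := Int.eq_ofNat_of_zero_le a1
  obtain ⟨j, hj⟩ := Int.eq_ofNat_of_zero_le a2
  have b1 : i + 1 ≤ p := by omega
  have b2 : j < q := by omega
  have b3 : i * q + j < p * q := by nlinarith
  rw [hi, hj, Int.toNat_natCast, Int.toNat_natCast, table, List.getD_eq_getElem _ _ (by simpa),
    List.getElem_map, List.getElem_range, mul_comm i q, Nat.mul_add_div (by omega),
    Nat.mul_add_mod, Nat.div_eq_of_lt b2, Nat.mod_eq_of_lt b2, add_zero, ← hi, ← hj,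
    ← periodic h1 (x.1 / p), ← periodic h2 (x.2 / q)]
  congr 1
  ext
  · simp [Int.emod_add_ediv_mul]
  · simp [Int.emod_add_ediv_mul]

lemma coded : ComputablePred (fun t : ℕ × ℕ × List ℕ =>
    ∃ n : ℕ, ¬ ∃ u : ℤ × ℤ → ℕ, ∀ x : ℤ × ℤ,
      ((min (t.2.2.getD ((x.1 % ((t.1 : ℤ) + 1)).toNat * (t.2.1 + 1)
            + (x.2 % ((t.2.1 : ℤ) + 1)).toNat) 0) 3 : ℕ) : ℤ)
        + (if x = 0 then (n : ℤ) else 0) + lap u x ≤ 3) := by
  refine Pool.Agent.Sand.explosive_computable.of_eq fun t => ?_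
  unfold Pool.Agent.Sand.Robust
  rw [not_forall]
  refine exists_congr fun n => not_congr (exists_congr fun u => forall_congr' fun x => ?_)
  rw [Pool.Agent.Sand.lap_eq]
  unfold Pool.Agent.Sand.cT lap
  constructor <;> intro h <;> linarith

theorem result : ∃ f : ℕ × ℕ × List ℕ → Bool, Computable f ∧
    ∀ (p q : ℕ) (c : ℤ × ℤ → ℕ), 1 ≤ p → 1 ≤ q → (∀ x, c x ≤ 3) →
      (∀ x, c (x + ((p : ℤ), 0)) = c x) → (∀ x, c (x + (0, (q : ℤ))) = c x) →
      (f (p, q, table p q c) = true ↔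
        ∃ n : ℕ, ¬ Stabilizable fun x => c x + if x = 0 then n else 0) := by
  obtain ⟨f, hf, h⟩ := ComputablePred.computable_iff.1 coded
  refine ⟨fun t => f (t.1 - 1, t.2.1 - 1, t.2.2), hf.comp (Primrec.to_comp
    ((Primrec.nat_sub.comp Primrec.fst (Primrec.const 1)).pair
      ((Primrec.nat_sub.comp (Primrec.fst.comp Primrec.snd) (Primrec.const 1)).pair
        (Primrec.snd.comp Primrec.snd)))), fun p q c hp hq h3 h1 h2 => ?_⟩
  have := congrFun h (p - 1, q - 1, table p q c)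
  dsimp only at this ⊢
  rw [← this]
  refine exists_congr fun n => not_congr ?_
  rw [stab_iff]
  refine exists_congr fun u => forall_congr' fun x => ?_
  rw [show ((p - 1 : ℕ) : ℤ) + 1 = p by omega, show ((q - 1 : ℕ) : ℤ) + 1 = q by omega,
    Nat.sub_add_cancel hq, table_get hp hq h1 h2, min_eq_left (h3 x)]
  split_ifs <;> simp

end Pool.Agent.Results.MP_215a10_lc.Decidable
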