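import Mathlib
import Pool.Agent.Lib.MP_215a10_lc.Criterion

namespace Pool.Agent.Results.MP_215a10_lc.LowDensity

open Finset

/-- `c + n δ₀` has a toppling function that makes it stable. -/
def Stabilizable (c : ℤ × ℤ → ℕ) (n : ℕ) : Prop :=
  ∃ u : ℤ × ℤ → ℕ, ∀ x : ℤ × ℤ,
    (c x : ℤ) + (if x = 0 then (n : ℤ) else 0)
      + ((u (x.1 + 1, x.2) : ℤ) + (u (x.1 - 1, x.2) : ℤ) + (u (x.1, x.2 + 1) : ℤ)
        + (u (x.1, x.2 - 1) : ℤ)) - 4 * (u x : ℤ) ≤ 3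

theorem result (c : ℤ × ℤ → ℕ) (p q : ℕ) (hp : 1 ≤ p) (hq : 1 ≤ q)
    (h1 : ∀ x, c (x + ((p : ℤ), 0)) = c x) (h2 : ∀ x, c (x + (0, (q : ℤ))) = c x)
    (h3 : ∀ x, c x ≤ 3)
    (hd : ∑ i ∈ range p, ∑ j ∈ range q, c (i, j) < 2 * (p * q)) :
    ∀ n, Stabilizable c n :=
  (Pool.Agent.Lib.MP_215a10_lc.Criterion.both c p q hp hq h1 h2 h3).1 hd

end Pool.Agent.Results.MP_215a10_lc.LowDensity
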