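import Mathlib

namespace Pool.Agent.Results.MP_215a10_lc.PinnedSlope

open Filter Topology

/-- `c + n δ₀` has a toppling function that makes it stable. -/
def Stabilizable (c : ℤ × ℤ → ℕ) (n : ℕ) : Prop :=
  ∃ u : ℤ × ℤ → ℕ, ∀ x : ℤ × ℤ,
    (c x : ℤ) + (if x = 0 then (n : ℤ) else 0)
      + ((u (x.1 + 1, x.2) : ℤ) + (u (x.1 - 1, x.2) : ℤ) + (u (x.1, x.2 + 1) : ℤ)
        + (u (x.1, x.2 - 1) : ℤ)) - 4 * (u x : ℤ) ≤ 3

/-- Integer supersolution. -/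
def Super (c : ℤ × ℤ → ℕ) (u : ℤ × ℤ → ℤ) : Prop :=
  ∀ x : ℤ × ℤ, (c x : ℤ)
    + (u (x.1 + 1, x.2) + u (x.1 - 1, x.2) + u (x.1, x.2 + 1) + u (x.1, x.2 - 1)) - 4 * u x ≤ 3

def nrm (a x : ℤ × ℤ) : ℕ := (x.1 - a.1).natAbs + (x.2 - a.2).natAbs

lemma harnack {c : ℤ × ℤ → ℕ} {u : ℤ × ℤ → ℤ} (hu : Super c u) (a : ℤ × ℤ) (R : ℕ) (l : ℤ)
    (hl : ∀ x, nrm a x ≤ R + 1 → l ≤ u x) :
    ∀ j, j ≤ R → ∀ x, nrm a x = j →
      u a - l + 1 ≤ 4 ^ j * (u x - l + 1) ∧ u x - l + 1 ≤ 4 ^ j * (u a - l + 1) := by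
  have key : ∀ x y : ℤ × ℤ, nrm a x ≤ R →
      (y = (x.1 + 1, x.2) ∨ y = (x.1 - 1, x.2) ∨ y = (x.1, x.2 + 1) ∨ y = (x.1, x.2 - 1)) →
      u y - l + 1 ≤ 4 * (u x - l + 1) := by
    intro x y hx hy
    have h0 := hu x
    have h1 := hl (x.1 + 1, x.2) (by simp only [nrm] at hx ⊢; omega)
    have h2 := hl (x.1 - 1, x.2) (by simp only [nrm] at hx ⊢; omega)
    have h3 := hl (x.1, x.2 + 1) (by simp only [nrm] at hx ⊢; omega)
    have h4 := hl (x.1, x.2 - 1) (by simp only [nrm] at hx ⊢; omega)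
    have h5 : (0 : ℤ) ≤ c x := Int.natCast_nonneg _
    rcases hy with rfl | rfl | rfl | rfl <;> linarith
  intro j
  induction j with
  | zero =>
    intro _ x hx
    have : x = a := by
      simp only [nrm] at hx
      ext <;> omega
    subst this
    simp
  | succ j ih =>
    intro hj x hx
    obtain ⟨y, hy, hxy, hyx⟩ : ∃ y : ℤ × ℤ, nrm a y = j ∧
        (y = (x.1 + 1, x.2) ∨ y = (x.1 - 1, x.2) ∨ y = (x.1, x.2 + 1) ∨ y = (x.1, x.2 - 1)) ∧
        (x = (y.1 + 1, y.2) ∨ x = (y.1 - 1, y.2) ∨ x = (y.1, y.2 + 1) ∨ x = (y.1, y.2 - 1)) := by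
      simp only [nrm] at hx ⊢
      rcases lt_trichotomy x.1 a.1 with h | h | h
      · exact ⟨(x.1 + 1, x.2), by simp only; omega, by simp, by simp⟩
      · rcases lt_or_ge x.2 a.2 with h' | h'
        · exact ⟨(x.1, x.2 + 1), by simp only; omega, by simp, by simp⟩
        · exact ⟨(x.1, x.2 - 1), by simp only; omega, by simp, by simp⟩
      · exact ⟨(x.1 - 1, x.2), by simp only; omega, by simp, by simp⟩
    obtain ⟨i1, i2⟩ := ih (by omega) y hy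
    have k1 := key x y (by omega) hxy
    have k2 := key y x (by omega) hyx
    have p4 : (0 : ℤ) ≤ 4 ^ j := by positivity
    constructor
    · rw [pow_succ, mul_assoc]
      exact i1.trans (mul_le_mul_of_nonneg_left k1 p4)
    · rw [pow_succ, mul_comm (4 ^ j) 4, mul_assoc]
      linarith

lemma ball_finite (a : ℤ × ℤ) (R : ℕ) : {x : ℤ × ℤ | nrm a x ≤ R}.Finite := by
  refine ((Set.finite_Icc (a.1 - R) (a.1 + R)).prod (Set.finite_Icc (a.2 - R) (a.2 + R))).subset ?_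
  intro x hx
  simp only [nrm, Set.mem_ofPred_eq, Set.mem_prod, Set.mem_Icc] at hx ⊢
  omega

/-- The quadratic-plus-linear cost whose minimum over `K` is the barrier. -/
noncomputable def cost (r : ℝ) (x : ℤ × ℤ) (s : ℝ × ℝ) : ℝ :=
  s.1 * x.1 + s.2 * x.2 + r * (s.1 ^ 2 + s.2 ^ 2) / 2

lemma cost_min {K : Set (ℝ × ℝ)} (hc : Convex ℝ K) {r : ℝ} (hr : 0 < r) {x : ℤ × ℤ} {s : ℝ × ℝ}
    (hs : s ∈ K) (hmin : ∀ t ∈ K, cost r x s ≤ cost r x t) {t : ℝ × ℝ} (ht : t ∈ K) :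
    0 ≤ (x.1 + r * s.1) * (t.1 - s.1) + (x.2 + r * s.2) * (t.2 - s.2) := by
  by_contra h
  push Not at h
  set A := (x.1 + r * s.1) * (t.1 - s.1) + (x.2 + r * s.2) * (t.2 - s.2) with hA
  set D := (t.1 - s.1) ^ 2 + (t.2 - s.2) ^ 2 with hD
  have hD0 : 0 ≤ D := by positivity
  set e := min 1 (-A / (r * D + 1)) with he
  have hrd : 0 < r * D + 1 := by positivity
  have e0 : 0 < e := lt_min one_pos (div_pos (by linarith) hrd)
  have e1 : e ≤ 1 := min_le_left _ _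
  have e2 : e * (r * D + 1) ≤ -A := (le_div_iff₀ hrd).1 (min_le_right _ _)
  have hm := hmin _ (hc.add_smul_sub_mem hs ht ⟨e0.le, e1⟩)
  have : cost r x (s + e • (t - s)) = cost r x s + e * (A + e * (r * D) / 2) := by
    simp only [cost, hA, hD, Prod.fst_add, Prod.snd_add, Prod.smul_fst, Prod.smul_snd,
      Prod.fst_sub, Prod.snd_sub, smul_eq_mul]
    ring
  rw [this] at hm
  have : A + e * (r * D) / 2 < 0 := by nlinarith [mul_nonneg e0.le (mul_nonneg hr.le hD0)]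
  nlinarith

/-- Touching step. -/
lemma touch {c : ℤ × ℤ → ℕ} (hc : ∀ n, Stabilizable c n) {K : Set (ℝ × ℝ)} (hK : IsCompact K)
    (hcv : Convex ℝ K) (h0 : (0 : ℝ × ℝ) ∈ interior K) {r : ℝ} (hr : 0 < r) :
    ∃ (u : ℤ × ℤ → ℤ) (x : ℤ × ℤ) (s : ℝ × ℝ), Super c u ∧ s ∈ frontier K ∧ ∀ y : ℤ × ℤ,
      s.1 * (y.1 - x.1) + s.2 * (y.2 - x.2)
        - (((y.1 : ℝ) - x.1) ^ 2 + ((y.2 : ℝ) - x.2) ^ 2) / (2 * r) ≤ (u y : ℝ) - u x := by
  have h0K : (0 : ℝ × ℝ) ∈ K := interior_subset h0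
  obtain ⟨M, hM⟩ := hK.isBounded.exists_norm_le
  have hM0 : 0 ≤ M := le_trans (norm_nonneg _) (hM 0 h0K)
  have hM1 : ∀ s ∈ K, |s.1| ≤ M := fun s hs => le_trans (norm_fst_le s) (hM s hs)
  have hM2 : ∀ s ∈ K, |s.2| ≤ M := fun s hs => le_trans (norm_snd_le s) (hM s hs)
  obtain ⟨d, hd, hdK⟩ : ∃ d > 0, Metric.closedBall (0 : ℝ × ℝ) d ⊆ K :=
    Metric.nhds_basis_closedBall.mem_iff.1 (mem_interior_iff_mem_nhds.1 h0)
  have hex : ∀ x : ℤ × ℤ, ∃ s ∈ K, ∀ t ∈ K, cost r x s ≤ cost r x t := fun x => by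
    obtain ⟨s, hs, h⟩ := hK.exists_isMinOn ⟨0, h0K⟩ (f := cost r x)
      (by unfold cost; fun_prop : Continuous (cost r x)).continuousOn
    exact ⟨s, hs, fun t ht => h ht⟩
  choose σ hσK hσ using hex
  set ψ : ℤ × ℤ → ℝ := fun x => cost r x (σ x) with hψ
  have ψle0 : ∀ x, ψ x ≤ 0 := fun x => by simpa [cost, hψ] using hσ x 0 h0K
  have ψge : ∀ x, -(M * nrm 0 x) ≤ ψ x := fun x => by
    have a1 := hM1 _ (hσK x)
    have a2 := hM2 _ (hσK x)
    have b1 : |(σ x).1 * x.1| ≤ M * |(x.1 : ℝ)| := by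
      rw [abs_mul]; exact mul_le_mul_of_nonneg_right a1 (abs_nonneg _)
    have b2 : |(σ x).2 * x.2| ≤ M * |(x.2 : ℝ)| := by
      rw [abs_mul]; exact mul_le_mul_of_nonneg_right a2 (abs_nonneg _)
    have e : (nrm 0 x : ℝ) = |(x.1 : ℝ)| + |(x.2 : ℝ)| := by
      simp [nrm, Nat.cast_natAbs]
    have b3 : 0 ≤ r * ((σ x).1 ^ 2 + (σ x).2 ^ 2) / 2 := by positivity
    simp only [hψ, cost, e]
    linarith [neg_abs_le ((σ x).1 * x.1), neg_abs_le ((σ x).2 * x.2)]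
  have ψco : ∀ x, ψ x ≤ -(d * nrm 0 x) + r * d ^ 2 := fun x => by
    have e : (nrm 0 x : ℝ) = |(x.1 : ℝ)| + |(x.2 : ℝ)| := by
      simp [nrm, Nat.cast_natAbs]
    have m : ∀ a b : ℝ, |a| = d → |b| = d → (a, b) ∈ K := fun a b ha hb => hdK (by
      simp [Prod.norm_def, ha, hb])
    have n1 : |d| = d := abs_of_pos hd
    have n2 : |-d| = d := by rw [abs_neg, n1]
    rw [e]
    rcases abs_cases (x.1 : ℝ) with ⟨h1, _⟩ | ⟨h1, _⟩ <;>
      rcases abs_cases (x.2 : ℝ) with ⟨h2, _⟩ | ⟨h2, _⟩ <;> rw [h1, h2]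
    · have := hσ x _ (m _ _ n2 n2); simp only [cost] at this; simp only [hψ, cost]; nlinarith
    · have := hσ x _ (m _ _ n2 n1); simp only [cost] at this; simp only [hψ, cost]; nlinarith
    · have := hσ x _ (m _ _ n1 n2); simp only [cost] at this; simp only [hψ, cost]; nlinarith
    · have := hσ x _ (m _ _ n1 n1); simp only [cost] at this; simp only [hψ, cost]; nlinarith
  have ψtan : ∀ x y : ℤ × ℤ, (σ x).1 * (y.1 - x.1) + (σ x).2 * (y.2 - x.2)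
      - (((y.1 : ℝ) - x.1) ^ 2 + ((y.2 : ℝ) - x.2) ^ 2) / (2 * r) ≤ ψ y - ψ x := fun x y => by
    have h := cost_min hcv hr (hσK x) (hσ x) (hσK y)
    simp only [hψ, cost]
    set a1 := (σ y).1 - (σ x).1 with ha1
    set a2 := (σ y).2 - (σ x).2 with ha2
    set b1 := (y.1 : ℝ) - x.1 with hb1
    set b2 := (y.2 : ℝ) - x.2 with hb2
    have e1 : (σ y).1 = (σ x).1 + a1 := by rw [ha1]; ring
    have e2 : (σ y).2 = (σ x).2 + a2 := by rw [ha2]; ring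
    have e3 : (y.1 : ℝ) = x.1 + b1 := by rw [hb1]; ring
    have e4 : (y.2 : ℝ) = x.2 + b2 := by rw [hb2]; ring
    have q : -(b1 ^ 2 + b2 ^ 2) / (2 * r) ≤ a1 * b1 + a2 * b2 + r * (a1 ^ 2 + a2 ^ 2) / 2 := by
      rw [div_le_iff₀ (by positivity)]
      nlinarith [sq_nonneg (r * a1 + b1), sq_nonneg (r * a2 + b2)]
    rw [neg_div] at q
    rw [e1, e2, e3, e4]
    nlinarith
  have hfr : ∀ x : ℤ × ℤ, 2 * r * M < nrm 0 x → σ x ∈ frontier K := fun x hx => by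
    rw [hK.isClosed.frontier_eq]
    refine ⟨hσK x, fun hi => ?_⟩
    obtain ⟨ε, hε, hεK⟩ : ∃ ε > 0, Metric.closedBall (σ x) ε ⊆ K :=
      Metric.nhds_basis_closedBall.mem_iff.1 (mem_interior_iff_mem_nhds.1 hi)
    have m : ∀ a b : ℝ, |a| ≤ ε → |b| ≤ ε → ((σ x).1 + a, (σ x).2 + b) ∈ K :=
      fun a b ha hb => hεK (by
        rw [Metric.mem_closedBall, Prod.dist_eq]
        simp [ha, hb])
    have n0 : |(0 : ℝ)| ≤ ε := by simpa using hε.le
    have n1 : |ε| ≤ ε := (abs_of_pos hε).le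
    have n2 : |-ε| ≤ ε := by rwa [abs_neg]
    have k1 := cost_min hcv hr (hσK x) (hσ x) (m _ _ n1 n0)
    have k2 := cost_min hcv hr (hσK x) (hσ x) (m _ _ n2 n0)
    have k3 := cost_min hcv hr (hσK x) (hσ x) (m _ _ n0 n1)
    have k4 := cost_min hcv hr (hσK x) (hσ x) (m _ _ n0 n2)
    simp only [add_sub_cancel_left, add_zero] at k1 k2 k3 k4
    have z1 : (x.1 : ℝ) = -(r * (σ x).1) := by nlinarith
    have z2 : (x.2 : ℝ) = -(r * (σ x).2) := by nlinarith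
    have e : (nrm 0 x : ℝ) = |(x.1 : ℝ)| + |(x.2 : ℝ)| := by
      simp [nrm, Nat.cast_natAbs]
    rw [e, z1, z2, abs_neg, abs_neg, abs_mul, abs_mul, abs_of_pos hr] at hx
    nlinarith [hM1 _ (hσK x), hM2 _ (hσK x)]
  set R := ⌈2 * r * M⌉₊ with hR
  set m := ⌈M * (R + 1)⌉₊ with hm
  obtain ⟨u, hu⟩ := hc (4 ^ (R + 1) * (m + 2))
  have hs : Super c (fun x => (u x : ℤ)) := fun x => by
    have := hu x
    split_ifs at this
    · have : (0 : ℤ) ≤ ((4 ^ (R + 1) * (m + 2) : ℕ) : ℤ) := Int.natCast_nonneg _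
      simp only; linarith
    · simp only; linarith
  obtain ⟨z, hz, hzmin⟩ := (ball_finite 0 (R + 1)).exists_minimalFor u _ ⟨0, by simp [nrm]⟩
  have hl : ∀ x, nrm 0 x ≤ R + 1 → (u z : ℤ) ≤ u x := fun x hx => by
    rcases le_total (u z) (u x) with h | h
    · exact_mod_cast h
    · exact_mod_cast hzmin hx h
  have hbig : ∀ x, nrm 0 x ≤ R → (u z : ℤ) + m + 1 ≤ u x := fun x hx => by
    have h1 := (harnack hs 0 R (u z) hl _ hx x rfl).1
    have h2 := hu 0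
    have g1 := hl (1, 0) (by simp [nrm])
    have g2 := hl (-1, 0) (by simp [nrm])
    have g3 := hl (0, 1) (by simp [nrm])
    have g4 := hl (0, -1) (by simp [nrm])
    simp only [if_true, Prod.fst_zero, Prod.snd_zero] at h2
    push_cast at h2
    have h5 : (0 : ℤ) ≤ c 0 := Int.natCast_nonneg _
    have h6 : (4 : ℤ) ^ nrm 0 x ≤ 4 ^ R := pow_le_pow_right₀ (by norm_num) hx
    have h7 := hl x (by omega)
    have h8 : (4 : ℤ) ^ R * (m + 2) ≤ 4 ^ R * (u x - u z + 1) := by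
      have : (4 : ℤ) ^ nrm 0 x * (u x - u z + 1) ≤ 4 ^ R * (u x - u z + 1) :=
        mul_le_mul_of_nonneg_right h6 (by linarith)
      rw [pow_succ] at h2
      nlinarith
    have := le_of_mul_le_mul_left h8 (by positivity)
    linarith
  have hco : Tendsto (fun x => (u x : ℝ) - ψ x) cofinite atTop := by
    rw [tendsto_atTop]
    intro b
    rw [eventually_cofinite]
    refine (ball_finite 0 ⌈(b + r * d ^ 2) / d⌉₊).subset fun x hx => ?_
    simp only [Set.mem_ofPred_eq, not_le] at hx ⊢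
    have h1 := ψco x
    have h2 : (0 : ℝ) ≤ u x := Nat.cast_nonneg _
    have h3 : (nrm 0 x : ℝ) ≤ (b + r * d ^ 2) / d := by
      rw [le_div_iff₀ hd]; linarith
    exact_mod_cast h3.trans (Nat.le_ceil _)
  obtain ⟨x, hx⟩ := hco.exists_forall_le
  refine ⟨fun x => (u x : ℤ), x, σ x, hs, hfr x ?_, fun y => ?_⟩
  · by_contra h
    push Not at h
    have h1 : nrm 0 x ≤ R := by exact_mod_cast h.trans (Nat.le_ceil _)
    have h2 : (u z : ℝ) + m + 1 ≤ u x := by exact_mod_cast hbig x h1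
    have h3 := hx z
    have h4 := ψle0 x
    have h5 := ψge z
    have h6 : (nrm 0 z : ℝ) ≤ R + 1 := by exact_mod_cast hz
    have h7 : M * (R + 1) ≤ m := Nat.le_ceil _
    nlinarith
  · have := hx y
    have := ψtan x y
    push_cast
    linarith

lemma per {c : ℤ × ℤ → ℕ} {p q : ℕ} (h1 : ∀ x, c (x + ((p : ℤ), 0)) = c x)
    (h2 : ∀ x, c (x + (0, (q : ℤ))) = c x) (i j : ℤ) (x : ℤ × ℤ) :
    c (x.1 + i * p, x.2 + j * q) = c x := by
  have a := Function.Periodic.zsmul h1 i (x + j • (0, (q : ℤ)))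
  have b := Function.Periodic.zsmul h2 j x
  rw [← b, ← a]
  congr 1
  ext <;> simp

/-- Blow-up step: a global supersolution lying above a linear function with slope on the frontier. -/
lemma blowup {c : ℤ × ℤ → ℕ} {p q : ℕ} (hp : 1 ≤ p) (hq : 1 ≤ q)
    (h1 : ∀ x, c (x + ((p : ℤ), 0)) = c x) (h2 : ∀ x, c (x + (0, (q : ℤ))) = c x)
    (hc : ∀ n, Stabilizable c n) {K : Set (ℝ × ℝ)} (hK : IsCompact K)
    (hcv : Convex ℝ K) (h0 : (0 : ℝ × ℝ) ∈ interior K) :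
    ∃ (w : ℤ × ℤ → ℤ) (s : ℝ × ℝ) (B : ℝ), Super c w ∧ s ∈ frontier K ∧
      ∀ y : ℤ × ℤ, B ≤ (w y : ℝ) - (s.1 * y.1 + s.2 * y.2) := by
  have hex : ∀ r : ℕ, ∃ (w : ℤ × ℤ → ℤ) (a : ℤ × ℤ) (s : ℝ × ℝ), Super c w ∧ s ∈ frontier K ∧
      nrm 0 a ≤ p + q ∧ w a = 0 ∧ ∀ y : ℤ × ℤ, s.1 * (y.1 - a.1) + s.2 * (y.2 - a.2)
        - (((y.1 : ℝ) - a.1) ^ 2 + ((y.2 : ℝ) - a.2) ^ 2) / (2 * (r + 1)) ≤ (w y : ℝ) := fun r => by
    obtain ⟨u, x, s, hu, hs, h⟩ := touch hc hK hcv h0 (r := r + 1) (by positivity)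
    have e1 := Int.emod_add_mul_ediv x.1 p
    have e2 := Int.emod_add_mul_ediv x.2 q
    have n1 := Int.emod_nonneg x.1 (show (p : ℤ) ≠ 0 by omega)
    have n2 := Int.emod_nonneg x.2 (show (q : ℤ) ≠ 0 by omega)
    have l1 := Int.emod_lt_of_pos x.1 (show (0 : ℤ) < p by omega)
    have l2 := Int.emod_lt_of_pos x.2 (show (0 : ℤ) < q by omega)
    refine ⟨fun y => u (y.1 + x.1 / p * p, y.2 + x.2 / q * q) - u x, (x.1 % p, x.2 % q), s,
      fun y => ?_, hs, by simp only [nrm, Prod.fst_zero, Prod.snd_zero]; omega, ?_, fun y => ?_⟩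
    · have := hu (y.1 + x.1 / p * p, y.2 + x.2 / q * q)
      rw [per h1 h2] at this
      simp only at this ⊢
      rw [show y.1 + 1 + x.1 / p * p = y.1 + x.1 / p * p + 1 by ring,
        show y.1 - 1 + x.1 / p * p = y.1 + x.1 / p * p - 1 by ring,
        show y.2 + 1 + x.2 / q * q = y.2 + x.2 / q * q + 1 by ring,
        show y.2 - 1 + x.2 / q * q = y.2 + x.2 / q * q - 1 by ring]
      linarith
    · simp only
      rw [show x.1 % p + x.1 / p * p = x.1 by linarith, show x.2 % q + x.2 / q * q = x.2 by linarith]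
      simp
    · have := h (y.1 + x.1 / p * p, y.2 + x.2 / q * q)
      have f1 : ((y.1 + x.1 / p * p : ℤ) : ℝ) - x.1 = y.1 - ((x.1 % p : ℤ) : ℝ) := by
        exact_mod_cast (by linarith : y.1 + x.1 / p * p - x.1 = y.1 - x.1 % p)
      have f2 : ((y.2 + x.2 / q * q : ℤ) : ℝ) - x.2 = y.2 - ((x.2 % q : ℤ) : ℝ) := by
        exact_mod_cast (by linarith : y.2 + x.2 / q * q - x.2 = y.2 - x.2 % q)
      simp only [f1, f2] at this
      rw [Int.cast_sub]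
      exact this
  choose w a s hw hs ha hw0 hlow using hex
  have hF : IsCompact (frontier K) := hK.of_isClosed_subset isClosed_frontier hK.isClosed.frontier_subset
  obtain ⟨M, hM⟩ := hF.isBounded.exists_norm_le
  have hM1 : ∀ r, |(s r).1| ≤ M := fun r => le_trans (norm_fst_le (s r)) (hM _ (hs r))
  have hM2 : ∀ r, |(s r).2| ≤ M := fun r => le_trans (norm_snd_le (s r)) (hM _ (hs r))
  have hM0 : 0 ≤ M := le_trans (abs_nonneg _) (hM1 0)
  have hL : ∀ R : ℕ, ∃ l : ℤ, ∀ r y, nrm (a r) y ≤ R → l ≤ w r y := fun R => by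
    refine ⟨⌊-(M * R) - R ^ 2⌋, fun r y hy => ?_⟩
    have h := hlow r y
    have e : (nrm (a r) y : ℝ) = |(y.1 : ℝ) - (a r).1| + |(y.2 : ℝ) - (a r).2| := by
      simp [nrm, Nat.cast_natAbs]
    have hy' : (nrm (a r) y : ℝ) ≤ R := by exact_mod_cast hy
    rw [e] at hy'
    set b1 := (y.1 : ℝ) - (a r).1
    set b2 := (y.2 : ℝ) - (a r).2
    have t1 : |(s r).1 * b1| ≤ M * |b1| := by
      rw [abs_mul]; exact mul_le_mul_of_nonneg_right (hM1 r) (abs_nonneg _)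
    have t2 : |(s r).2 * b2| ≤ M * |b2| := by
      rw [abs_mul]; exact mul_le_mul_of_nonneg_right (hM2 r) (abs_nonneg _)
    have t3 : b1 ^ 2 + b2 ^ 2 ≤ R ^ 2 := by
      rw [← sq_abs b1, ← sq_abs b2]
      nlinarith [abs_nonneg b1, abs_nonneg b2]
    have t4 : (b1 ^ 2 + b2 ^ 2) / (2 * (r + 1)) ≤ R ^ 2 := by
      rw [div_le_iff₀ (by positivity)]
      have : (0 : ℝ) ≤ r := Nat.cast_nonneg _
      nlinarith [sq_nonneg (R : ℝ)]
    have t5 : M * (|b1| + |b2|) ≤ M * R := mul_le_mul_of_nonneg_left hy' hM0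
    have : ((⌊-(M * R) - R ^ 2⌋ : ℤ) : ℝ) ≤ w r y := by
      linarith [Int.floor_le (-(M * R) - R ^ 2), neg_abs_le ((s r).1 * b1),
        neg_abs_le ((s r).2 * b2)]
    exact_mod_cast this
  have hB : ∀ y : ℤ × ℤ, ∃ l u : ℤ, ∀ r, w r y ∈ Set.Icc l u := fun y => by
    obtain ⟨l, hl⟩ := hL (nrm 0 y + p + q + 1)
    have hy : ∀ r, nrm (a r) y ≤ nrm 0 y + p + q := fun r => by
      have := ha r
      simp only [nrm, Prod.fst_zero, Prod.snd_zero] at this ⊢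
      omega
    refine ⟨l, 4 ^ (nrm 0 y + p + q) * (1 - l) + l, fun r => ⟨hl r y (by linarith [hy r]), ?_⟩⟩
    have h := (harnack (hw r) (a r) _ l (hl r) _ (hy r) y rfl).2
    have h3 := hl r (a r) (by simp [nrm])
    rw [hw0 r] at h h3
    have h6 : (4 : ℤ) ^ nrm (a r) y ≤ 4 ^ (nrm 0 y + p + q) := pow_le_pow_right₀ (by norm_num) (hy r)
    nlinarith
  choose lo up hB using hB
  have hcomp : IsCompact ((Set.pi Set.univ fun y => Set.Icc (lo y) (up y)) ×ˢ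
      ({x : ℤ × ℤ | nrm 0 x ≤ p + q} ×ˢ frontier K)) :=
    (isCompact_univ_pi fun y => isCompact_Icc).prod ((ball_finite 0 _).isCompact.prod hF)
  obtain ⟨⟨W, A, S⟩, ⟨-, -, hS⟩, φ, hφ, hlim⟩ := hcomp.tendsto_subseq
    (x := fun r => (w r, a r, s r)) (fun r => ⟨fun y _ => hB y r, ha r, hs r⟩)
  have lw : ∀ y, ∀ᶠ r in atTop, w (φ r) y = W y := fun y => by
    have := (tendsto_pi_nhds.1 ((continuous_fst.tendsto _).comp hlim)) y
    simpa [nhds_discrete] using this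
  have la : ∀ᶠ r in atTop, a (φ r) = A := by
    have := ((continuous_fst.comp continuous_snd).tendsto _).comp hlim
    simpa [nhds_discrete] using this
  have ls : Tendsto (fun r => s (φ r)) atTop (𝓝 S) :=
    ((continuous_snd.comp continuous_snd).tendsto _).comp hlim
  refine ⟨W, S, -(S.1 * A.1 + S.2 * A.2), fun y => ?_, hS, fun y => ?_⟩
  · obtain ⟨r, r0, r1, r2, r3, r4⟩ := ((lw y).and ((lw (y.1 + 1, y.2)).and ((lw (y.1 - 1, y.2)).and
      ((lw (y.1, y.2 + 1)).and (lw (y.1, y.2 - 1)))))).exists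
    rw [← r0, ← r1, ← r2, ← r3, ← r4]
    exact hw _ y
  · have t0 : Tendsto (fun r : ℕ => (((y.1 : ℝ) - A.1) ^ 2 + ((y.2 : ℝ) - A.2) ^ 2)
        / (2 * ((φ r : ℝ) + 1))) atTop (𝓝 0) := by
      refine Tendsto.const_div_atTop ?_ _
      refine Tendsto.const_mul_atTop two_pos (tendsto_atTop_add_const_right _ _ ?_)
      exact tendsto_natCast_atTop_atTop.comp hφ.tendsto_atTop
    have t1 := ((((continuous_fst.tendsto _).comp ls).mul_const ((y.1 : ℝ) - A.1)).add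
      (((continuous_snd.tendsto _).comp ls).mul_const ((y.2 : ℝ) - A.2))).sub t0
    have := le_of_tendsto t1 (b := (W y : ℝ)) (by
      filter_upwards [lw y, la] with r e1 e2
      have := hlow (φ r) y
      rw [e1, e2] at this
      exact this)
    linarith

lemma ceil_le_of {δ ε : ℝ} {m : ℤ} (hε : ε ≤ δ - ⌈δ⌉ + 1) (h : δ - ε < m) : ⌈δ⌉ ≤ m := by
  have : ((⌈δ⌉ - 1 : ℤ) : ℝ) < m := by push_cast; linarith
  have : ⌈δ⌉ - 1 < m := by exact_mod_cast this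
  omega

theorem result (c : ℤ × ℤ → ℕ) (p q : ℕ) (hp : 1 ≤ p) (hq : 1 ≤ q)
    (h1 : ∀ x, c (x + ((p : ℤ), 0)) = c x) (h2 : ∀ x, c (x + (0, (q : ℤ))) = c x)
    (K : Set (ℝ × ℝ)) (hK : IsCompact K) (hcv : Convex ℝ K) (h0 : (0 : ℝ × ℝ) ∈ interior K)
    (hc : ∀ n, Stabilizable c n) :
    ∃ s ∈ frontier K, ∃ β : ℤ × ℤ → ℝ,
      (∀ x, β (x + ((p : ℤ), 0)) = β x) ∧ (∀ x, β (x + (0, (q : ℤ))) = β x) ∧
      ∀ x : ℤ × ℤ, (c x : ℤ)
        + (⌈β (x.1 + 1, x.2) - β x + s.1⌉ + ⌈β (x.1 - 1, x.2) - β x - s.1⌉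
          + ⌈β (x.1, x.2 + 1) - β x + s.2⌉ + ⌈β (x.1, x.2 - 1) - β x - s.2⌉) ≤ 3 := by
  obtain ⟨w, s, B, hw, hs, hB⟩ := blowup hp hq h1 h2 hc hK hcv h0
  set f : ℤ × ℤ → ℝ := fun y => (w y : ℝ) - (s.1 * y.1 + s.2 * y.2) with hf
  set β : ℤ × ℤ → ℝ := fun x => ⨅ l : ℤ × ℤ, f (x.1 + l.1 * p, x.2 + l.2 * q) with hβ
  have bdd : ∀ x : ℤ × ℤ, BddBelow (Set.range fun l : ℤ × ℤ => f (x.1 + l.1 * p, x.2 + l.2 * q)) :=
    fun x => ⟨B, by rintro _ ⟨l, rfl⟩; exact hB _⟩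
  have hle : ∀ x l : ℤ × ℤ, β x ≤ f (x.1 + l.1 * p, x.2 + l.2 * q) := fun x l => ciInf_le (bdd x) l
  refine ⟨s, hs, β, fun x => ?_, fun x => ?_, fun x => ?_⟩
  · simp only [hβ]
    rw [← (Equiv.addRight ((-1, 0) : ℤ × ℤ)).iInf_comp]
    congr 1; ext l; congr 1
    ext <;> simp; ring
  · simp only [hβ]
    rw [← (Equiv.addRight ((0, -1) : ℤ × ℤ)).iInf_comp]
    congr 1; ext l; congr 1
    ext <;> simp; ring
  · set d1 := β (x.1 + 1, x.2) - β x + s.1 with hd1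
    set d2 := β (x.1 - 1, x.2) - β x - s.1 with hd2
    set d3 := β (x.1, x.2 + 1) - β x + s.2 with hd3
    set d4 := β (x.1, x.2 - 1) - β x - s.2 with hd4
    set ε := min (min (d1 - ⌈d1⌉ + 1) (d2 - ⌈d2⌉ + 1)) (min (d3 - ⌈d3⌉ + 1) (d4 - ⌈d4⌉ + 1)) with hε
    have ε0 : 0 < ε := by
      simp only [hε, lt_min_iff]
      refine ⟨⟨?_, ?_⟩, ?_, ?_⟩ <;> linarith [Int.ceil_lt_add_one d1, Int.ceil_lt_add_one d2,
        Int.ceil_lt_add_one d3, Int.ceil_lt_add_one d4]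
    obtain ⟨l, hl⟩ := exists_lt_of_ciInf_lt (show β x < β x + ε by linarith)
    have hy := hw (x.1 + l.1 * p, x.2 + l.2 * q)
    rw [per h1 h2] at hy
    have g1 := hle (x.1 + 1, x.2) l
    have g2 := hle (x.1 - 1, x.2) l
    have g3 := hle (x.1, x.2 + 1) l
    have g4 := hle (x.1, x.2 - 1) l
    simp only [hf] at hl g1 g2 g3 g4 hy
    rw [show x.1 + 1 + l.1 * p = x.1 + l.1 * p + 1 by ring] at g1
    rw [show x.1 - 1 + l.1 * p = x.1 + l.1 * p - 1 by ring] at g2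
    rw [show x.2 + 1 + l.2 * q = x.2 + l.2 * q + 1 by ring] at g3
    rw [show x.2 - 1 + l.2 * q = x.2 + l.2 * q - 1 by ring] at g4
    set X := x.1 + l.1 * p
    set Y := x.2 + l.2 * q
    push_cast at g1 g2 g3 g4
    have c1 := ceil_le_of (δ := d1) (m := w (X + 1, Y) - w (X, Y))
      ((min_le_left _ _).trans (min_le_left _ _)) (by push_cast; linarith)
    have c2 := ceil_le_of (δ := d2) (m := w (X - 1, Y) - w (X, Y))
      ((min_le_left _ _).trans (min_le_right _ _)) (by push_cast; linarith)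
    have c3 := ceil_le_of (δ := d3) (m := w (X, Y + 1) - w (X, Y))
      ((min_le_right _ _).trans (min_le_left _ _)) (by push_cast; linarith)
    have c4 := ceil_le_of (δ := d4) (m := w (X, Y - 1) - w (X, Y))
      ((min_le_right _ _).trans (min_le_right _ _)) (by push_cast; linarith)
    linarith

end Pool.Agent.Results.MP_215a10_lc.PinnedSlope
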