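import Mathlib

namespace Pool.Agent.Results.MP_215a10_lc.SlopeChain

/-- `c + n δ₀` has a toppling function that makes it stable. -/
def Stabilizable (c : ℤ × ℤ → ℕ) (n : ℕ) : Prop :=
  ∃ u : ℤ × ℤ → ℕ, ∀ x : ℤ × ℤ,
    (c x : ℤ) + (if x = 0 then (n : ℤ) else 0)
      + ((u (x.1 + 1, x.2) : ℤ) + (u (x.1 - 1, x.2) : ℤ) + (u (x.1, x.2 + 1) : ℤ)
        + (u (x.1, x.2 - 1) : ℤ)) - 4 * (u x : ℤ) ≤ 3

/-- `k x e` is an integer budget on the directed edge from `x` to `x + e`; the budgets out of each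
site fit into the free room of `c` there. -/
def Budget (c : ℤ × ℤ → ℕ) (k : ℤ × ℤ → ℤ × ℤ → ℤ) : Prop :=
  ∀ x, (c x : ℤ) + (k x (1, 0) + k x (-1, 0) + k x (0, 1) + k x (0, -1)) ≤ 3

/-- Some bounded perturbation of the linear function of slope `s` respects the budgets `k`. -/
def Fits (k : ℤ × ℤ → ℤ × ℤ → ℤ) (s : ℝ × ℝ) : Prop :=
  ∃ (β : ℤ × ℤ → ℝ) (B : ℝ), ∀ x : ℤ × ℤ, |β x| ≤ B ∧
    β (x.1 + 1, x.2) - β x + s.1 ≤ k x (1, 0) ∧ β (x.1 - 1, x.2) - β x - s.1 ≤ k x (-1, 0) ∧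
    β (x.1, x.2 + 1) - β x + s.2 ≤ k x (0, 1) ∧ β (x.1, x.2 - 1) - β x - s.2 ≤ k x (0, -1)

/-- Slopes reached from `0` by sliding inside one budget and by filling convex hulls. -/
inductive Reach (c : ℤ × ℤ → ℕ) : ℝ × ℝ → Prop
  | zero : Reach c 0
  | slide (s s' : ℝ × ℝ) (t : ℝ) (k : ℤ × ℤ → ℤ × ℤ → ℤ) : Reach c s → Budget c k → Fits k s →
      Fits k s' → 0 ≤ t → t < 1 → Reach c (s + t • (s' - s))
  | hull (A : Finset (ℝ × ℝ)) (s : ℝ × ℝ) (k : ℤ × ℤ → ℤ × ℤ → ℤ) : (∀ a ∈ A, Reach c a) →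
      s ∈ interior (convexHull ℝ (A : Set (ℝ × ℝ))) → Budget c k → Fits k s → Reach c s

def Super (c : ℤ × ℤ → ℕ) (u : ℤ × ℤ → ℤ) : Prop :=
  ∀ x : ℤ × ℤ, (c x : ℤ)
    + (u (x.1 + 1, x.2) + u (x.1 - 1, x.2) + u (x.1, x.2 + 1) + u (x.1, x.2 - 1)) - 4 * u x ≤ 3

def nrm (x : ℤ × ℤ) : ℕ := x.1.natAbs + x.2.natAbs

def dot (s : ℝ × ℝ) (x : ℤ × ℤ) : ℝ := s.1 * x.1 + s.2 * x.2

def App (c : ℤ × ℤ → ℕ) (u : ℤ × ℤ → ℤ) : Prop :=
  ∀ R : ℕ, ∃ (w : ℤ × ℤ → ℤ) (B : ℤ), Super c w ∧ (∀ x, B ≤ w x) ∧ ∀ x, nrm x ≤ R → w x = u x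

def Strong (c : ℤ × ℤ → ℕ) (s : ℝ × ℝ) : Prop :=
  ∀ (u : ℤ × ℤ → ℤ) (B : ℝ), Super c u → (∀ x, dot s x - B ≤ u x) → App c u

def Pinned (c : ℤ × ℤ → ℕ) (s : ℝ × ℝ) : Prop :=
  ∃ (u : ℤ × ℤ → ℤ) (B : ℝ), Super c u ∧ ∀ x, |(u x : ℝ) - dot s x| ≤ B

/-- Real functions respecting the budgets. -/
def Resp (k : ℤ × ℤ → ℤ × ℤ → ℤ) (V : ℤ × ℤ → ℝ) : Prop :=
  ∀ x : ℤ × ℤ, V (x.1 + 1, x.2) ≤ V x + k x (1, 0) ∧ V (x.1 - 1, x.2) ≤ V x + k x (-1, 0) ∧
    V (x.1, x.2 + 1) ≤ V x + k x (0, 1) ∧ V (x.1, x.2 - 1) ≤ V x + k x (0, -1)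

lemma nrm_cast (x : ℤ × ℤ) : (nrm x : ℝ) = |(x.1 : ℝ)| + |(x.2 : ℝ)| := by
  simp [nrm, Nat.cast_natAbs]

lemma dot_le (s : ℝ × ℝ) (x : ℤ × ℤ) : |dot s x| ≤ ‖s‖ * nrm x := by
  have a1 : |s.1| ≤ ‖s‖ := norm_fst_le s
  have a2 : |s.2| ≤ ‖s‖ := norm_snd_le s
  rw [nrm_cast, dot, mul_add]
  refine (abs_add_le _ _).trans (add_le_add ?_ ?_) <;> rw [abs_mul] <;> gcongr

lemma ball_finite (R : ℕ) : {x : ℤ × ℤ | nrm x ≤ R}.Finite := by
  refine ((Set.finite_Icc (-(R : ℤ)) R).prod (Set.finite_Icc (-(R : ℤ)) R)).subset ?_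
  intro x hx
  simp only [nrm, Set.mem_ofPred_eq, Set.mem_prod, Set.mem_Icc] at hx ⊢
  omega

lemma ball_bound (f : ℤ × ℤ → ℝ) (R : ℕ) : ∃ C : ℝ, ∀ x, nrm x ≤ R → f x ≤ C := by
  obtain ⟨C, hC⟩ := ((ball_finite R).image f).bddAbove
  exact ⟨C, fun x hx => hC ⟨x, hx, rfl⟩⟩

lemma Fits.resp {k : ℤ × ℤ → ℤ × ℤ → ℤ} {s : ℝ × ℝ} (h : Fits k s) :
    ∃ (V : ℤ × ℤ → ℝ) (B : ℝ), Resp k V ∧ ∀ x, |V x - dot s x| ≤ B := by
  obtain ⟨β, B, h⟩ := h
  refine ⟨fun x => β x + dot s x, B, fun x => ?_, fun x => by simpa using (h x).1⟩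
  obtain ⟨-, h1, h2, h3, h4⟩ := h x
  simp only [dot]
  push_cast
  refine ⟨?_, ?_, ?_, ?_⟩ <;> linarith

lemma Resp.super {c : ℤ × ℤ → ℕ} {k : ℤ × ℤ → ℤ × ℤ → ℤ} {V : ℤ × ℤ → ℝ} (hk : Budget c k)
    (h : Resp k V) : Super c fun x => ⌊V x⌋ := fun x => by
  obtain ⟨h1, h2, h3, h4⟩ := h x
  have g1 := Int.floor_le_floor h1
  have g2 := Int.floor_le_floor h2
  have g3 := Int.floor_le_floor h3
  have g4 := Int.floor_le_floor h4
  rw [Int.floor_add_intCast] at g1 g2 g3 g4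
  have := hk x
  simp only
  linarith

lemma Resp.max {k : ℤ × ℤ → ℤ × ℤ → ℤ} {V W : ℤ × ℤ → ℝ} (h : Resp k V) (h' : Resp k W)
    (a b : ℝ) : Resp k fun x => max (V x + a) (W x + b) := fun x => by
  obtain ⟨h1, h2, h3, h4⟩ := h x
  obtain ⟨g1, g2, g3, g4⟩ := h' x
  have l := le_max_left (V x + a) (W x + b)
  have r := le_max_right (V x + a) (W x + b)
  refine ⟨?_, ?_, ?_, ?_⟩ <;> refine max_le ?_ ?_ <;> linarith

lemma Fits.pinned {c : ℤ × ℤ → ℕ} {k : ℤ × ℤ → ℤ × ℤ → ℤ} {s : ℝ × ℝ} (hk : Budget c k)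
    (h : Fits k s) : Pinned c s := by
  obtain ⟨V, B, hV, hB⟩ := h.resp
  refine ⟨_, B + 1, hV.super hk, fun x => ?_⟩
  have := abs_le.1 (hB x)
  rw [abs_le]
  constructor <;> linarith [Int.floor_le (V x), Int.lt_floor_add_one (V x)]

lemma Fits.combo {k : ℤ × ℤ → ℤ × ℤ → ℤ} {s s' : ℝ × ℝ} (h : Fits k s) (h' : Fits k s') {t : ℝ}
    (t0 : 0 ≤ t) (t1 : t ≤ 1) : Fits k (s + t • (s' - s)) := by
  obtain ⟨β, B, h⟩ := h
  obtain ⟨β', B', h'⟩ := h'
  refine ⟨fun x => (1 - t) * β x + t * β' x, (1 - t) * B + t * B', fun x => ?_⟩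
  obtain ⟨h0, h1, h2, h3, h4⟩ := h x
  obtain ⟨g0, g1, g2, g3, g4⟩ := h' x
  have t2 : 0 ≤ 1 - t := by linarith
  simp only [Prod.fst_add, Prod.snd_add, Prod.smul_fst, Prod.smul_snd, Prod.fst_sub, Prod.snd_sub,
    smul_eq_mul]
  refine ⟨?_, ?_, ?_, ?_, ?_⟩
  · refine (abs_add_le _ _).trans (add_le_add ?_ ?_) <;> rw [abs_mul]
    · rw [abs_of_nonneg t2]; gcongr
    · rw [abs_of_nonneg t0]; gcongr
  · nlinarith [mul_le_mul_of_nonneg_left h1 t2, mul_le_mul_of_nonneg_left g1 t0]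
  · nlinarith [mul_le_mul_of_nonneg_left h2 t2, mul_le_mul_of_nonneg_left g2 t0]
  · nlinarith [mul_le_mul_of_nonneg_left h3 t2, mul_le_mul_of_nonneg_left g3 t0]
  · nlinarith [mul_le_mul_of_nonneg_left h4 t2, mul_le_mul_of_nonneg_left g4 t0]

open Classical in
lemma glue {c : ℤ × ℤ → ℕ} {u W : ℤ × ℤ → ℤ} (hu : Super c u) (hW : Super c W)
    (Ω : ℤ × ℤ → Prop) (h : ∀ x y : ℤ × ℤ, Ω x → ¬ Ω y →
      (y.1 - x.1).natAbs + (y.2 - x.2).natAbs = 1 → W y ≤ u y) :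
    Super c fun x => if Ω x then min (u x) (W x) else W x := fun x => by
  set f : ℤ × ℤ → ℤ := fun x => if Ω x then min (u x) (W x) else W x with hf
  have a : ∀ y, f y ≤ W y := fun y => by
    simp only [hf]; split_ifs
    · exact min_le_right _ _
    · exact le_rfl
  have b : Ω x → ∀ y : ℤ × ℤ, (y.1 - x.1).natAbs + (y.2 - x.2).natAbs = 1 → f y ≤ u y :=
    fun hx y hy => by
      simp only [hf]; split_ifs with h'
      · exact min_le_left _ _
      · exact h x y hx h' hy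
  have e : f x = W x ∨ (Ω x ∧ f x = u x) := by
    simp only [hf]; split_ifs with h'
    · rcases min_cases (u x) (W x) with h | h
      · exact Or.inr ⟨h', h.1⟩
      · exact Or.inl h.1
    · exact Or.inl rfl
  rcases e with e | ⟨hx, e⟩
  · have := hW x
    linarith [a (x.1 + 1, x.2), a (x.1 - 1, x.2), a (x.1, x.2 + 1), a (x.1, x.2 - 1)]
  · have := hu x
    linarith [b hx (x.1 + 1, x.2) (by simp), b hx (x.1 - 1, x.2) (by simp),
      b hx (x.1, x.2 + 1) (by simp), b hx (x.1, x.2 - 1) (by simp)]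

lemma Super.min {c : ℤ × ℤ → ℕ} {u W : ℤ × ℤ → ℤ} (hu : Super c u) (hW : Super c W) :
    Super c fun x => min (u x) (W x) := by
  simpa using glue hu hW (fun _ => True) (by simp)

lemma Super.add {c : ℤ × ℤ → ℕ} {u : ℤ × ℤ → ℤ} (hu : Super c u) (a : ℤ) :
    Super c fun x => u x + a := fun x => by
  have := hu x
  simp only
  linarith

lemma strong_slide {c : ℤ × ℤ → ℕ} {s s' : ℝ × ℝ} {t : ℝ} {k : ℤ × ℤ → ℤ × ℤ → ℤ}
    (hs : Strong c s) (hk : Budget c k) (h : Fits k s) (h' : Fits k s') (t0 : 0 ≤ t) (t1 : t < 1) :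
    Strong c (s + t • (s' - s)) := by
  intro u B hu hB R
  obtain ⟨V, D, hV, hD⟩ := h.resp
  obtain ⟨V', D', hV', hD'⟩ := h'.resp
  have hl : ∀ x, dot (s + t • (s' - s)) x = dot s x + t * dot (s' - s) x := fun x => by
    simp only [dot, Prod.fst_add, Prod.snd_add, Prod.smul_fst, Prod.smul_snd, smul_eq_mul]; ring
  have hl' : ∀ x, dot s' x = dot s x + dot (s' - s) x := fun x => by
    simp only [dot, Prod.fst_sub, Prod.snd_sub]; ring
  set l := s' - s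
  obtain ⟨C, hC⟩ := ball_bound (fun x => u x - V' x + 1) R
  set ρ := max (‖l‖ * R) ((D' + C + B) / (1 - t)) with hρ
  have ρ1 : ‖l‖ * R ≤ ρ := le_max_left _ _
  have ρ2 : D' + C + B ≤ ρ * (1 - t) := (div_le_iff₀ (by linarith)).1 (le_max_right _ _)
  have ρ0 : 0 ≤ ρ := le_trans (by positivity) ρ1
  set E := D + B + ρ + ‖l‖ with hE
  have hW := (hV.max hV' (-E) C).super hk
  have hg := glue hu hW (fun x => -ρ ≤ dot l x) (fun x y hx hy hxy => by
    push Not at hy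
    have e1 : dot l y = dot l x + dot l (y.1 - x.1, y.2 - x.2) := by
      simp only [dot]; push_cast; ring
    have e2 := dot_le l (y.1 - x.1, y.2 - x.2)
    rw [show nrm (y.1 - x.1, y.2 - x.2) = 1 from hxy] at e2
    have e3 : -ρ - ‖l‖ ≤ dot l y := by
      have := (abs_le.1 e2).1
      push_cast at this
      linarith
    have f1 := (abs_le.1 (hD y)).2
    have f2 := (abs_le.1 (hD' y)).2
    have f3 := hB y
    rw [hl] at f3
    rw [hl'] at f2
    have : max (V y + -E) (V' y + C) ≤ u y := by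
      refine max_le ?_ ?_
      · nlinarith [norm_nonneg l]
      · nlinarith
    have := (Int.floor_le _).trans this
    exact_mod_cast this)
  obtain ⟨w, b, hw, hb, he⟩ := hs _ (max (B + ρ) (D + E + 1)) hg (fun x => by
    have f1 := (abs_le.1 (hD x)).1
    have f3 := hB x
    rw [hl] at f3
    have f4 := Int.lt_floor_add_one (max (V x + -E) (V' x + C))
    have f5 := le_max_left (V x + -E) (V' x + C)
    have f6 := le_max_left (B + ρ) (D + E + 1)
    have f7 := le_max_right (B + ρ) (D + E + 1)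
    split_ifs with hx
    · push_cast
      refine le_min ?_ (by linarith)
      nlinarith
    · linarith) R
  refine ⟨w, b, hw, hb, fun x hx => ?_⟩
  rw [he x hx]
  have e2 := (abs_le.1 (dot_le l x)).1
  have hx' : (nrm x : ℝ) ≤ R := by exact_mod_cast hx
  have : -ρ ≤ dot l x := by nlinarith [norm_nonneg l]
  simp only [this, if_true]
  refine min_eq_left (Int.le_floor.2 ?_)
  have := hC x hx
  linarith [le_max_right (V x + -E) (V' x + C)]

lemma App.min {c : ℤ × ℤ → ℕ} {u v : ℤ × ℤ → ℤ} (hu : App c u) (hv : App c v) :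
    App c fun x => min (u x) (v x) := fun R => by
  obtain ⟨w, b, hw, hb, he⟩ := hu R
  obtain ⟨w', b', hw', hb', he'⟩ := hv R
  exact ⟨_, Min.min b b', hw.min hw', fun x => min_le_min (hb x) (hb' x),
    fun x hx => by simp only [he x hx, he' x hx]⟩

lemma cone {c : ℤ × ℤ → ℕ} (A : Finset (ℝ × ℝ)) (hne : A.Nonempty)
    (hA : ∀ a ∈ A, Strong c a ∧ Pinned c a) :
    ∃ (W : ℤ × ℤ → ℤ) (D : ℝ), App c W ∧ ∀ a ∈ A, ∀ x, (W x : ℝ) ≤ dot a x + D := by
  induction hne using Finset.Nonempty.cons_induction with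
  | singleton a =>
    obtain ⟨h, u, B, hu, hB⟩ := hA a (by simp)
    refine ⟨u, B, h u B hu fun x => by linarith [(abs_le.1 (hB x)).1], fun b hb x => ?_⟩
    rw [Finset.mem_singleton.1 hb]
    linarith [(abs_le.1 (hB x)).2]
  | cons a A ha hne ih =>
    obtain ⟨W, D, hW, hD⟩ := ih fun b hb => hA b (by simp [hb])
    obtain ⟨h, u, B, hu, hB⟩ := hA a (by simp)
    refine ⟨_, max B D, (h u B hu fun x => by linarith [(abs_le.1 (hB x)).1]).min hW,
      fun b hb x => ?_⟩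
    push_cast
    rcases Finset.mem_cons.1 hb with rfl | hb
    · exact (min_le_left _ _).trans (by linarith [(abs_le.1 (hB x)).2, le_max_left B D])
    · exact (min_le_right _ _).trans (by linarith [hD b hb x, le_max_right B D])

lemma strong_hull {c : ℤ × ℤ → ℕ} (A : Finset (ℝ × ℝ)) {s : ℝ × ℝ}
    (hA : ∀ a ∈ A, Strong c a ∧ Pinned c a)
    (hs : s ∈ interior (convexHull ℝ (A : Set (ℝ × ℝ)))) : Strong c s := by
  intro u B hu hB R
  have hne : A.Nonempty := by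
    have := interior_subset hs
    by_contra h
    rw [Finset.not_nonempty_iff_eq_empty.1 h] at this
    simp at this
  obtain ⟨W, D, hW, hD⟩ := cone A hne hA
  obtain ⟨d, hd, hdK⟩ : ∃ d > 0, Metric.closedBall s d ⊆ convexHull ℝ (A : Set (ℝ × ℝ)) :=
    Metric.nhds_basis_closedBall.mem_iff.1 (mem_interior_iff_mem_nhds.1 hs)
  have hh : ∀ x, ∀ b ∈ convexHull ℝ (A : Set (ℝ × ℝ)), (W x : ℝ) ≤ dot b x + D := fun x => by
    refine convexHull_min (t := {b | (W x : ℝ) ≤ dot b x + D}) (fun a ha => hD a ha x) ?_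
    intro a ha b hb p q hp hq hpq
    simp only [Set.mem_ofPred_eq, dot, Prod.fst_add, Prod.snd_add, Prod.smul_fst, Prod.smul_snd,
      smul_eq_mul] at ha hb ⊢
    have e : (W x : ℝ) - D = p * (W x - D) + q * (W x - D) := by rw [← add_mul, hpq, one_mul]
    have e' : D = p * D + q * D := by rw [← add_mul, hpq, one_mul]
    nlinarith [mul_le_mul_of_nonneg_left ha hp, mul_le_mul_of_nonneg_left hb hq]
  have hco : ∀ x, (W x : ℝ) ≤ dot s x - d * nrm x + D := fun x => by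
    have m : ∀ a b : ℝ, |a| = d → |b| = d → (W x : ℝ) ≤ dot (s.1 + a, s.2 + b) x + D :=
      fun a b ha hb => hh x _ (hdK (by
        rw [Metric.mem_closedBall, Prod.dist_eq]
        simp [ha, hb]))
    have n1 : |d| = d := abs_of_pos hd
    have n2 : |-d| = d := by rw [abs_neg, n1]
    rw [nrm_cast]
    rcases abs_cases (x.1 : ℝ) with ⟨h1, _⟩ | ⟨h1, _⟩ <;>
      rcases abs_cases (x.2 : ℝ) with ⟨h2, _⟩ | ⟨h2, _⟩ <;> rw [h1, h2]
    · have := m _ _ n2 n2; simp only [dot] at this ⊢; linarith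
    · have := m _ _ n2 n1; simp only [dot] at this ⊢; linarith
    · have := m _ _ n1 n2; simp only [dot] at this ⊢; linarith
    · have := m _ _ n1 n1; simp only [dot] at this ⊢; linarith
  obtain ⟨C, hC⟩ := ball_bound (fun x => u x - W x) R
  set R' := R + ⌈(D + ⌈C⌉ + B) / d⌉₊ with hR'
  obtain ⟨w, b, hw, hb, he⟩ := hW (R' + 1)
  have hg := glue hu (hw.add ⌈C⌉) (fun x => nrm x ≤ R') (fun x y hx hy hxy => by
    have h1 : nrm y ≤ R' + 1 := by simp only [nrm] at hx ⊢; omega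
    have h2 : (D + ⌈C⌉ + B) / d ≤ nrm y :=
      (Nat.le_ceil _).trans (by exact_mod_cast (by omega))
    rw [div_le_iff₀ hd] at h2
    have : ((w y + ⌈C⌉ : ℤ) : ℝ) ≤ u y := by
      rw [he y h1]
      push_cast
      linarith [hco y, hB y]
    exact_mod_cast this)
  obtain ⟨L, hL⟩ := ball_bound (fun x => -(u x : ℝ)) R'
  refine ⟨_, min (-⌈L⌉) (b + ⌈C⌉), hg, fun x => ?_, fun x hx => ?_⟩
  · split_ifs with hx
    · refine min_le_min ?_ (by linarith [hb x])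
      have : ((-⌈L⌉ : ℤ) : ℝ) ≤ u x := by
        push_cast
        linarith [hL x hx, Int.le_ceil L]
      exact_mod_cast this
    · exact (min_le_right _ _).trans (by linarith [hb x])
  · have h1 : nrm x ≤ R' := by omega
    simp only [h1, if_true]
    refine min_eq_left ?_
    rw [he x (by omega)]
    have : (u x : ℝ) ≤ ((W x + ⌈C⌉ : ℤ) : ℝ) := by
      push_cast
      linarith [hC x hx, Int.le_ceil C]
    exact_mod_cast this

lemma reach_inv {c : ℤ × ℤ → ℕ} (h3 : ∀ x, c x ≤ 3) {s : ℝ × ℝ} (h : Reach c s) :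
    Strong c s ∧ Pinned c s := by
  induction h with
  | zero =>
    refine ⟨fun u B hu hB R => ⟨u, ⌊-B⌋, hu, fun x => ?_, fun _ _ => rfl⟩,
      fun _ => 0, 0, fun x => by simpa using (by exact_mod_cast h3 x : (c x : ℤ) ≤ 3),
      fun x => by simp [dot]⟩
    have : ((⌊-B⌋ : ℤ) : ℝ) ≤ u x := by
      have := hB x
      simp only [dot, Prod.fst_zero, Prod.snd_zero] at this
      linarith [Int.floor_le (-B)]
    exact_mod_cast this
  | slide s s' t k _ hk h h' t0 t1 ih =>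
    exact ⟨strong_slide ih.1 hk h h' t0 t1, (h.combo h' t0 t1.le).pinned hk⟩
  | hull A s k _ hs hk h ih => exact ⟨strong_hull A ih hs, h.pinned hk⟩

def StabAt (c : ℤ × ℤ → ℕ) (a : ℤ × ℤ) (n : ℕ) : Prop :=
  ∃ u : ℤ × ℤ → ℕ, ∀ x : ℤ × ℤ,
    (c x : ℤ) + (if x = a then (n : ℤ) else 0)
      + ((u (x.1 + 1, x.2) : ℤ) + (u (x.1 - 1, x.2) : ℤ) + (u (x.1, x.2 + 1) : ℤ)
        + (u (x.1, x.2 - 1) : ℤ)) - 4 * (u x : ℤ) ≤ 3

lemma StabAt.mono {c : ℤ × ℤ → ℕ} {a : ℤ × ℤ} {n m : ℕ} (h : StabAt c a n) (hm : m ≤ n) :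
    StabAt c a m := by
  obtain ⟨u, hu⟩ := h
  refine ⟨u, fun x => ?_⟩
  have := hu x
  split_ifs at this ⊢ <;> omega

lemma StabAt.move {c : ℤ × ℤ → ℕ} {a b : ℤ × ℤ} {n : ℕ} (h : StabAt c a (4 * n))
    (hb : (b.1 - a.1).natAbs + (b.2 - a.2).natAbs = 1) : StabAt c b n := by
  obtain ⟨u, hu⟩ := h
  have h0 : n ≤ u a := by
    have := hu a
    simp only [if_true] at this
    omega
  have e : ∀ y, (((if y = a then u y - n else u y : ℕ)) : ℤ) = u y - if y = a then (n : ℤ) else 0 :=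
    fun y => by
      split_ifs with h
      · subst h; omega
      · simp
  refine ⟨fun y => if y = a then u y - n else u y, fun x => ?_⟩
  have := hu x
  simp only [e]
  obtain ⟨a1, a2⟩ := a
  obtain ⟨b1, b2⟩ := b
  obtain ⟨x1, x2⟩ := x
  simp only [Prod.mk.injEq] at this hb ⊢
  push_cast at this
  split_ifs at this ⊢ <;> omega

lemma StabAt.origin {c : ℤ × ℤ → ℕ} (n : ℕ) :
    ∀ (j : ℕ) (a : ℤ × ℤ), nrm a = j → StabAt c a (4 ^ j * n) → StabAt c 0 n := by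
  intro j
  induction j with
  | zero =>
    intro a ha h
    have : a = 0 := by
      simp only [nrm] at ha
      ext <;> simp <;> omega
    simpa [this] using h
  | succ j ih =>
    intro a ha h
    rw [pow_succ, mul_comm _ 4, mul_assoc] at h
    simp only [nrm] at ha
    rcases lt_trichotomy a.1 0 with h' | h' | h'
    · exact ih (a.1 + 1, a.2) (by simp only [nrm]; omega) (h.move (by simp))
    · rcases lt_or_ge a.2 0 with h'' | h''
      · exact ih (a.1, a.2 + 1) (by simp only [nrm]; omega) (h.move (by simp))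
      · exact ih (a.1, a.2 - 1) (by simp only [nrm]; omega) (h.move (by simp))
    · exact ih (a.1 - 1, a.2) (by simp only [nrm]; omega) (h.move (by simp))

lemma stab_of_drop {c : ℤ × ℤ → ℕ} (h3 : ∀ x, c x ≤ 3) {w : ℤ × ℤ → ℤ} {b : ℤ} (hw : Super c w)
    (hb : ∀ x, b ≤ w x) {a y : ℤ × ℤ} (hy : (y.1 - a.1).natAbs + (y.2 - a.2).natAbs = 1) {n : ℕ}
    (hn : w y + n ≤ w a) : StabAt c a n := by
  have hc : Super c fun _ => w a := fun x => by
    have := h3 x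
    simp only
    omega
  have hv := hw.min hc
  refine ⟨fun x => (min (w x) (w a) - b).toNat, fun x => ?_⟩
  have e : ∀ x, (((min (w x) (w a) - b).toNat : ℕ) : ℤ) = min (w x) (w a) - b := fun x =>
    Int.toNat_of_nonneg (by have := hb x; have := hb a; omega)
  simp only [e]
  split_ifs with h
  · subst h
    have := h3 x
    have : y = (x.1 + 1, x.2) ∨ y = (x.1 - 1, x.2) ∨ y = (x.1, x.2 + 1) ∨ y = (x.1, x.2 - 1) := by
      obtain ⟨y1, y2⟩ := y
      simp only [Prod.mk.injEq] at hy ⊢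
      omega
    rcases this with rfl | rfl | rfl | rfl <;> omega
  · have := hv x
    simp only at this
    linarith

lemma drop {u : ℤ × ℤ → ℤ} {s : ℝ × ℝ} {B : ℝ} (hB : ∀ x, |(u x : ℝ) - dot s x| ≤ B) (n : ℕ)
    (e : ℤ × ℤ) (he : dot s e ≤ -(n + 1)) : ∃ a : ℤ × ℤ, u (a + e) + n ≤ u a := by
  by_contra h
  push Not at h
  have key : ∀ m : ℕ, u 0 ≤ u ((m : ℤ) • e) + m * n := fun m => by
    induction m with
    | zero => simp
    | succ m ih =>
      have := h ((m : ℤ) • e)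
      rw [show ((m + 1 : ℕ) : ℤ) • e = (m : ℤ) • e + e by push_cast; rw [add_smul, one_smul]]
      push_cast
      linarith
  obtain ⟨m, hm⟩ := exists_nat_gt (2 * B)
  have k : (u 0 : ℝ) ≤ u ((m : ℤ) • e) + m * n := by exact_mod_cast key m
  have a1 := (abs_le.1 (hB 0)).1
  have a2 := (abs_le.1 (hB ((m : ℤ) • e))).2
  have e1 : dot s ((m : ℤ) • e) = m * dot s e := by simp [dot]; ring
  have e2 : dot s 0 = 0 := by simp [dot]
  have : (0 : ℝ) ≤ m := Nat.cast_nonneg _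
  nlinarith

lemma per {c : ℤ × ℤ → ℕ} {p q : ℕ} (h1 : ∀ x, c (x + ((p : ℤ), 0)) = c x)
    (h2 : ∀ x, c (x + (0, (q : ℤ))) = c x) (i j : ℤ) (x : ℤ × ℤ) :
    c (x.1 + i * p, x.2 + j * q) = c x := by
  have a := Function.Periodic.zsmul h1 i (x + j • (0, (q : ℤ)))
  have b := Function.Periodic.zsmul h2 j x
  rw [← b, ← a]
  congr 1
  ext <;> simp

theorem result (c : ℤ × ℤ → ℕ) (p q : ℕ) (hp : 1 ≤ p) (hq : 1 ≤ q)
    (h1 : ∀ x, c (x + ((p : ℤ), 0)) = c x) (h2 : ∀ x, c (x + (0, (q : ℤ))) = c x)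
    (h3 : ∀ x, c x ≤ 3) (hR : ¬ Bornology.IsBounded {s | Reach c s}) (n : ℕ) :
    Stabilizable c n := by
  set N := 4 ^ (p + q) * n with hN
  obtain ⟨s, hs, hbig⟩ : ∃ s, Reach c s ∧ (N : ℝ) + 1 < ‖s‖ := by
    by_contra h
    push Not at h
    exact hR (isBounded_iff_forall_norm_le.2 ⟨_, h⟩)
  obtain ⟨hS, u, B, hu, hB⟩ := reach_inv h3 hs
  obtain ⟨e, he, hd⟩ : ∃ e : ℤ × ℤ, nrm e = 1 ∧ dot s e ≤ -(N + 1) := by
    rw [Prod.norm_def, lt_max_iff, Real.norm_eq_abs, Real.norm_eq_abs, lt_abs, lt_abs] at hbig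
    rcases hbig with (h | h) | h | h
    · exact ⟨(-1, 0), rfl, by simp [dot]; linarith⟩
    · exact ⟨(1, 0), rfl, by simp [dot]; linarith⟩
    · exact ⟨(0, -1), rfl, by simp [dot]; linarith⟩
    · exact ⟨(0, 1), rfl, by simp [dot]; linarith⟩
  obtain ⟨x, hx⟩ := drop hB N e hd
  obtain ⟨w, b, hw, hb, hwu⟩ := hS u B hu (fun x => by linarith [(abs_le.1 (hB x)).1]) (nrm x + 1)
  rw [← hwu x (by omega), ← hwu (x + e) (by simp only [nrm, Prod.fst_add, Prod.snd_add] at he ⊢; omega)] at hx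
  have e1 := Int.emod_add_mul_ediv x.1 p
  have e2 := Int.emod_add_mul_ediv x.2 q
  have n1 := Int.emod_nonneg x.1 (show (p : ℤ) ≠ 0 by omega)
  have n2 := Int.emod_nonneg x.2 (show (q : ℤ) ≠ 0 by omega)
  have l1 := Int.emod_lt_of_pos x.1 (show (0 : ℤ) < p by omega)
  have l2 := Int.emod_lt_of_pos x.2 (show (0 : ℤ) < q by omega)
  have hw' : Super c fun y => w (y.1 + x.1 / p * p, y.2 + x.2 / q * q) := fun y => by
    have := hw (y.1 + x.1 / p * p, y.2 + x.2 / q * q)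
    rw [per h1 h2] at this
    simp only at this ⊢
    rw [show y.1 + 1 + x.1 / p * p = y.1 + x.1 / p * p + 1 by ring,
      show y.1 - 1 + x.1 / p * p = y.1 + x.1 / p * p - 1 by ring,
      show y.2 + 1 + x.2 / q * q = y.2 + x.2 / q * q + 1 by ring,
      show y.2 - 1 + x.2 / q * q = y.2 + x.2 / q * q - 1 by ring]
    exact this
  have hst : StabAt c (x.1 % p, x.2 % q) N := by
    refine stab_of_drop h3 hw' (fun y => hb _) (y := (x.1 % p + e.1, x.2 % q + e.2))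
      (by simpa [nrm] using he) ?_
    simp only
    rw [show x.1 % p + x.1 / p * p = x.1 by linarith, show x.2 % q + x.2 / q * q = x.2 by linarith,
      show x.1 % p + e.1 + x.1 / p * p = x.1 + e.1 by linarith,
      show x.2 % q + e.2 + x.2 / q * q = x.2 + e.2 by linarith]
    exact hx
  refine StabAt.origin n _ _ rfl (hst.mono (Nat.mul_le_mul_right _ (Nat.pow_le_pow_right (by norm_num) ?_)))
  simp only [nrm]
  omega

end Pool.Agent.Results.MP_215a10_lc.SlopeChain
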